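import Pool.Agent.Lib.MP_adea1b_nt.Presieve
import Pool.Agent.Lib.MP_d4c1d0_nt.PrimeIntervals

/-!
# A residue class modulo the primes up to `4 w` (one prime left out) such that all the numbers
`a n ± 1`, `n ≤ U`, have a prime factor up to `4 w`
-/

open Finset
open scoped Classical

namespace RepLpf

open Pool.Agent.FixedClass

/-- Number of primes in `(w, 4 w]`, different from `l`. -/
lemma card_primes (w l : ℕ) (hw : 6250000 ≤ w) :
    (w : ℝ) / Real.log (4 * w) - 1 ≤
      (((Ioc w (4 * w)).filter fun p : ℕ => p.Prime ∧ p ≠ l).card : ℝ) := by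
  have hwR : (6250000 : ℝ) ≤ w := by exact_mod_cast hw
  have h1 := Pool.Agent.ThetaSum.theta_diff hwR
  have hlog : 0 < Real.log (4 * w) := Real.log_pos (by linarith)
  have h2 : Chebyshev.theta (4 * (w : ℝ)) - Chebyshev.theta (w : ℝ) =
      ∑ p ∈ (Ioc w (4 * w)).filter Nat.Prime, Real.log p := by
    have e1 : (4 * (w : ℝ)) = ((4 * w : ℕ) : ℝ) := by push_cast; ring
    rw [e1]
    unfold Chebyshev.theta
    rw [Nat.floor_natCast, Nat.floor_natCast]
    have e2 : (Ioc 0 (4 * w)).filter Nat.Prime =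
        (Ioc 0 w).filter Nat.Prime ∪ (Ioc w (4 * w)).filter Nat.Prime := by
      rw [← filter_union, Ioc_union_Ioc_eq_Ioc (Nat.zero_le _) (by omega)]
    rw [e2, sum_union]
    · ring
    · apply disjoint_filter_filter
      rw [disjoint_left]
      intro a ha hb
      rw [mem_Ioc] at ha hb
      omega
  have h3 : ∑ p ∈ (Ioc w (4 * w)).filter Nat.Prime, Real.log p ≤
      ((Ioc w (4 * w)).filter Nat.Prime).card * Real.log (4 * w) := by
    rw [← nsmul_eq_mul, ← sum_const]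
    refine sum_le_sum fun p hp => ?_
    rw [mem_filter, mem_Ioc] at hp
    have : (p : ℝ) ≤ 4 * w := by exact_mod_cast hp.1.2
    exact Real.log_le_log (by exact_mod_cast hp.2.pos) this
  have h4 : (w : ℝ) / Real.log (4 * w) ≤ ((Ioc w (4 * w)).filter Nat.Prime).card := by
    rw [div_le_iff₀ hlog]
    linarith
  have h5 : ((Ioc w (4 * w)).filter Nat.Prime).card ≤
      ((Ioc w (4 * w)).filter fun p : ℕ => p.Prime ∧ p ≠ l).card + 1 := by
    have h6 : (Ioc w (4 * w)).filter Nat.Prime ⊆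
        insert l ((Ioc w (4 * w)).filter fun p : ℕ => p.Prime ∧ p ≠ l) := by
      intro p hp
      rw [mem_filter] at hp
      rw [mem_insert, mem_filter]
      by_cases h : p = l
      · exact Or.inl h
      · exact Or.inr ⟨hp.1, hp.2, h⟩
    exact (card_le_card h6).trans (card_insert_le _ _)
  have h6 : (((Ioc w (4 * w)).filter Nat.Prime).card : ℝ) ≤
      (((Ioc w (4 * w)).filter fun p : ℕ => p.Prime ∧ p ≠ l).card : ℝ) + 1 := by
    exact_mod_cast h5
  linarith

/-- Injective assignment avoiding one value per element. -/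
lemma assign {σ : Type*} (Q : Finset ℕ) (bad : σ → ℕ) : ∀ S : Finset σ, S.card < Q.card →
    ∃ f : σ → ℕ, (∀ s ∈ S, f s ∈ Q ∧ f s ≠ bad s) ∧ Set.InjOn f S := by
  intro S
  induction S using Finset.induction_on with
  | empty => intro _; exact ⟨fun _ => 0, by simp, by simp⟩
  | insert s S hs ih =>
    intro hcard
    rw [card_insert_of_notMem hs] at hcard
    obtain ⟨f, hf1, hf2⟩ := ih (by omega)
    have h1 : (Q.erase (bad s) \ S.image f).Nonempty := by
      rw [← card_pos]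
      have h2 := le_card_sdiff (S.image f) (Q.erase (bad s))
      have h3 : Q.card - 1 ≤ (Q.erase (bad s)).card := pred_card_le_card_erase
      have h4 : (S.image f).card ≤ S.card := card_image_le
      omega
    obtain ⟨p, hp⟩ := h1
    rw [mem_sdiff, mem_erase] at hp
    refine ⟨fun t => if t = s then p else f t, ?_, ?_⟩
    · intro t ht
      rw [mem_insert] at ht
      by_cases hts : t = s
      · simp only [hts, if_true]
        exact ⟨hp.1.2, hp.1.1⟩
      · simp only [hts, if_false]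
        exact hf1 t (ht.resolve_left hts)
    · intro t ht t' ht' h
      rw [mem_coe, mem_insert] at ht ht'
      by_cases hts : t = s <;> by_cases hts' : t' = s
      · rw [hts, hts']
      · simp only [hts, hts', if_true, if_false] at h
        exact absurd (mem_image.2 ⟨t', ht'.resolve_left hts', h.symm⟩) hp.2
      · simp only [hts, hts', if_true, if_false] at h
        exact absurd (mem_image.2 ⟨t, ht.resolve_left hts, h⟩) hp.2
      · simp only [hts, hts', if_false] at h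
        exact hf2 (ht.resolve_left hts) (ht'.resolve_left hts') h

/-- the primes up to `4 w` different from `l` -/
noncomputable def TS (w l : ℕ) : Finset ℕ := (Ioc 0 (4 * w)).filter fun p : ℕ => p.Prime ∧ p ≠ l

/-- The residue class, from the survivors of the presieve. -/
lemma exists_class (w l U : ℕ) (hUw : U < w * w) (ρ : ℕ → ℕ)
    (hρ : ∀ p : ℕ, p.Prime → p ≤ w → ¬ p ∣ ρ p)
    (hcard : (((Ioc 0 U) ×ˢ (BB 1)).filter fun s => ∀ p : ℕ, p.Prime → p ≤ w → p ≠ l →
        ¬ (p : ℤ) ∣ (ρ p : ℤ) * s.1 + s.2).card <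
      ((Ioc w (4 * w)).filter fun p : ℕ => p.Prime ∧ p ≠ l).card) :
    ∃ b : ℕ, Nat.Coprime b (∏ p ∈ TS w l, p) ∧ ∀ a : ℕ, a ≡ b [MOD ∏ p ∈ TS w l, p] →
      ∀ n : ℕ, 1 ≤ n → n ≤ U → ∀ e : ℤ, e = 1 ∨ e = -1 →
        ∃ p : ℕ, p.Prime ∧ p ≤ 4 * w ∧ (p : ℤ) ∣ a * n + e := by
  set S := (((Ioc 0 U) ×ˢ (BB 1)).filter fun s => ∀ p : ℕ, p.Prime → p ≤ w → p ≠ l →
        ¬ (p : ℤ) ∣ (ρ p : ℤ) * s.1 + s.2) with hS
  set Q := (Ioc w (4 * w)).filter fun p : ℕ => p.Prime ∧ p ≠ l with hQ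
  set bad : ℕ × ℤ → ℕ := fun s => if h : ∃ p ∈ Q, p ∣ s.1 then h.choose else 0 with hbad
  obtain ⟨f, hf1, hf2⟩ := assign Q bad S hcard
  have hbad' : ∀ s ∈ S, ¬ f s ∣ s.1 := by
    intro s hs hd
    obtain ⟨h1, h2⟩ := hf1 s hs
    have h3 : ∃ p ∈ Q, p ∣ s.1 := ⟨f s, h1, hd⟩
    have h4 : bad s = h3.choose := by
      simp only [hbad]
      rw [dif_pos h3]
    obtain ⟨h5, h6⟩ := h3.choose_spec
    rw [← h4] at h5 h6
    rw [hQ, mem_filter, mem_Ioc] at h1 h5
    rw [hS, mem_filter, mem_product, mem_Ioc] at hs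
    have h7 : Nat.Coprime (f s) (bad s) := (Nat.coprime_primes h1.2.1 h5.2.1).2 h2
    have h8 := Nat.le_of_dvd (by omega) (h7.mul_dvd_of_dvd_of_dvd hd h6)
    have h9 : w * w < f s * bad s := Nat.mul_lt_mul'' h1.1.1 h5.1.1
    omega
  -- the classes
  set ρ' : ℕ → ℕ := fun p => if p ≤ w then ρ p else
    if h : ∃ s ∈ S, f s = p then rs p h.choose.1 h.choose.2 else 1 with hρ'
  have hρ'1 : ∀ p ∈ TS w l, ¬ p ∣ ρ' p := by
    intro p hp
    unfold TS at hp
    rw [mem_filter] at hp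
    simp only [hρ']
    split_ifs with h1 h2
    · exact hρ p hp.2.1 h1
    · obtain ⟨h3, h4⟩ := h2.choose_spec
      set s := h2.choose with hs
      have h5 : ¬ p ∣ s.1 := by rw [← h4]; exact hbad' s h3
      have h6 : ¬ (p : ℤ) ∣ s.2 := by
        rw [hS, mem_filter, mem_product, mem_BB] at h3
        intro h7
        have h8 := h3.1.2.2
        have h9 := Int.natAbs_dvd_natAbs.2 h7
        have h10 : s.2.natAbs = 1 := by
          have h11 : |s.2| = 1 := le_antisymm (by exact_mod_cast h8) (Int.one_le_abs h3.1.2.1)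
          rw [Int.abs_eq_natAbs] at h11
          exact_mod_cast h11
        rw [h10, Int.natAbs_natCast] at h9
        exact hp.2.1.one_lt.ne' (Nat.dvd_one.1 h9)
      exact Nat.not_dvd_of_pos_of_lt (rs_ne hp.2.1 h5 h6) (rs_lt hp.2.1.pos _ _)
    · exact fun h => hp.2.1.one_lt.ne' (Nat.dvd_one.1 h)
  have hpw : Set.Pairwise (↑(TS w l) : Set ℕ) (Function.onFun Nat.Coprime (fun p : ℕ => p)) := by
    intro p hp q hq hpq
    rw [mem_coe, TS, mem_filter] at hp hq
    exact (Nat.coprime_primes hp.2.1 hq.2.1).mpr hpq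
  obtain ⟨b, hb⟩ := Nat.chineseRemainderOfFinset ρ' (fun p : ℕ => p) (TS w l)
    (fun p hp => by rw [TS, mem_filter] at hp; exact hp.2.1.ne_zero) hpw
  refine ⟨b, ?_, ?_⟩
  · apply Nat.Coprime.prod_right
    intro p hp
    have hpp : p.Prime := by rw [TS, mem_filter] at hp; exact hp.2.1
    rw [Nat.coprime_comm, hpp.coprime_iff_not_dvd]
    intro h
    apply hρ'1 p hp
    exact (Nat.modEq_zero_iff_dvd).1 ((hb p hp).symm.trans ((Nat.modEq_zero_iff_dvd).2 h))
  · intro a ha n hn1 hnU e he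
    have haρ : ∀ p ∈ TS w l, a ≡ ρ' p [MOD p] := fun p hp =>
      (ha.of_dvd (dvd_prod_of_mem (fun p => p) hp)).trans (hb p hp)
    have heB : e ∈ BB 1 := by
      rw [mem_BB]
      rcases he with rfl | rfl <;> norm_num
    by_cases hpre : ∀ p : ℕ, p.Prime → p ≤ w → p ≠ l → ¬ (p : ℤ) ∣ (ρ p : ℤ) * n + e
    · have hsS : (n, e) ∈ S := by
        rw [hS, mem_filter, mem_product, mem_Ioc]
        exact ⟨⟨⟨hn1, hnU⟩, heB⟩, hpre⟩
      have h1 := (hf1 _ hsS).1
      have h2 := h1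
      rw [hQ, mem_filter, mem_Ioc] at h2
      refine ⟨f (n, e), h2.2.1, h2.1.2, ?_⟩
      have hT : f (n, e) ∈ TS w l := by
        rw [TS, mem_filter, mem_Ioc]
        exact ⟨⟨h2.2.1.pos, h2.1.2⟩, h2.2⟩
      have h3 : ρ' (f (n, e)) = rs (f (n, e)) n e := by
        simp only [hρ']
        rw [if_neg (by omega)]
        have h4 : ∃ s ∈ S, f s = f (n, e) := ⟨_, hsS, rfl⟩
        rw [dif_pos h4]
        obtain ⟨h5, h6⟩ := h4.choose_spec
        have h7 := hf2 h5 hsS h6
        rw [h7]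
      have h4 := haρ _ hT
      rw [h3] at h4
      exact rs_dvd h2.2.1 (hbad' _ hsS) e h4
    · push Not at hpre
      obtain ⟨p, hp, hpw, hpl, hdvd⟩ := hpre
      refine ⟨p, hp, by omega, ?_⟩
      have hT : p ∈ TS w l := by
        rw [TS, mem_filter, mem_Ioc]
        exact ⟨⟨hp.pos, by omega⟩, hp, hpl⟩
      have h1 := haρ p hT
      have h2 : ρ' p = ρ p := by simp only [hρ']; rw [if_pos hpw]
      rw [h2] at h1
      have h3 : (p : ℤ) ∣ (a : ℤ) - ρ p := (Nat.modEq_iff_dvd.1 h1.symm)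
      have h4 : (a : ℤ) * n + e = ((ρ p : ℤ) * n + e) + ((a : ℤ) - ρ p) * n := by ring
      rw [h4]
      exact dvd_add hdvd (h3.mul_right _)

lemma eventually_c (C : ℝ) (hC : 0 < C) : ∀ᶠ w : ℕ in Filter.atTop,
    6250000 ≤ w ∧ 100 ≤ Real.log w ∧ 1 ≤ Real.log (Real.log w) ∧
      1 ≤ Real.log (Real.log (Real.log w)) ∧
      (w : ℝ) ^ (1 - 1 / 32 : ℝ) + 1 < 1 / (4 * (C + 1)) * (w * Real.log w *
        Real.log (Real.log (Real.log w)) / Real.log (Real.log w) ^ 2) ∧
      Real.log w ^ 2 < w ∧ 2 * Real.log w + 2 ≤ w := by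
  have hcast : Filter.Tendsto (fun x : ℕ => (x : ℝ)) Filter.atTop Filter.atTop :=
    tendsto_natCast_atTop_atTop
  have hlog := Real.tendsto_log_atTop
  have h2 : (fun x : ℝ => Real.log x ^ 2) =o[Filter.atTop] (fun x : ℝ => x) := by
    have h := isLittleO_log_rpow_rpow_atTop (s := (1 : ℝ)) (2 : ℝ) (by norm_num)
    refine h.congr' ?_ ?_
    · filter_upwards with x
      exact_mod_cast Real.rpow_natCast (Real.log x) 2
    · filter_upwards with x
      simp
  have h3 := h2.bound (show (0:ℝ) < 1 / 2 by norm_num)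
  have h4 : ∀ᶠ x : ℝ in Filter.atTop, 8 * (C + 1) ≤ x ^ (1 / 32 : ℝ) :=
    (tendsto_rpow_atTop (by norm_num)).eventually_ge_atTop _
  filter_upwards [hcast.eventually h3, Filter.eventually_ge_atTop 6250000,
    (hlog.comp hcast).eventually_ge_atTop 100,
    (hlog.comp (hlog.comp hcast)).eventually_ge_atTop 1,
    (hlog.comp (hlog.comp (hlog.comp hcast))).eventually_ge_atTop 1,
    (hlog.comp hcast).eventually h3,
    hcast.eventually h4] with w hw h5 h6 h7 h8 h9 h10
  simp only [Function.comp] at h6 h7 h8 h9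
  have hw0 : (0:ℝ) < w := by
    have : (6250000 : ℝ) ≤ w := by exact_mod_cast h5
    linarith
  rw [Real.norm_of_nonneg (sq_nonneg _), Real.norm_of_nonneg hw0.le] at hw
  rw [Real.norm_of_nonneg (sq_nonneg _), Real.norm_of_nonneg (by linarith)] at h9
  refine ⟨h5, h6, h7, h8, ?_, by linarith, by nlinarith⟩
  set L := Real.log (w : ℝ) with hL
  set LL := Real.log L with hLL
  set L3 := Real.log LL with hL3
  have h11 : 2 * (w : ℝ) ≤ w * L * L3 / LL ^ 2 := by
    rw [le_div_iff₀ (by positivity)]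
    calc 2 * (w : ℝ) * LL ^ 2 = w * (2 * LL ^ 2) * 1 := by ring
      _ ≤ w * L * L3 := by gcongr; linarith
  have h12 : (w : ℝ) ^ (1 / 32 : ℝ) * (w : ℝ) ^ (1 - 1 / 32 : ℝ) = w := by
    rw [← Real.rpow_add hw0]; norm_num
  have h13 : (1:ℝ) ≤ (w : ℝ) ^ (1 - 1 / 32 : ℝ) := by
    apply Real.one_le_rpow _ (by norm_num)
    have : (6250000 : ℝ) ≤ w := by exact_mod_cast h5
    linarith
  calc (w : ℝ) ^ (1 - 1 / 32 : ℝ) + 1 ≤ 2 * (w : ℝ) ^ (1 - 1 / 32 : ℝ) := by linarith
    _ = 1 / (4 * (C + 1)) * ((8 * (C + 1)) * (w : ℝ) ^ (1 - 1 / 32 : ℝ)) := by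
        field_simp; norm_num
    _ ≤ 1 / (4 * (C + 1)) * ((w : ℝ) ^ (1 / 32 : ℝ) * (w : ℝ) ^ (1 - 1 / 32 : ℝ)) := by gcongr
    _ = 1 / (4 * (C + 1)) * w := by rw [h12]
    _ < 1 / (4 * (C + 1)) * (w * L * L3 / LL ^ 2) := by
        apply mul_lt_mul_of_pos_left _ (by positivity)
        linarith

/-- For every large `w` and every prime `l` there is a reduced residue class modulo the product
of the primes up to `4 w`, `≠ l`, such that for `a` in this class, all `a n ± 1`, `n ≤ U`, have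
a prime factor up to `4 w`. -/
theorem core : ∃ c : ℝ, 0 < c ∧ ∃ w₀ : ℕ, ∀ w : ℕ, w₀ ≤ w → ∀ l : ℕ, l.Prime → ∃ b U : ℕ,
    Nat.Coprime b (∏ p ∈ TS w l, p) ∧
    c * (w * Real.log w * Real.log (Real.log (Real.log w)) / Real.log (Real.log w) ^ 2) ≤ U ∧
    ∀ a : ℕ, a ≡ b [MOD ∏ p ∈ TS w l, p] →
      ∀ n : ℕ, 1 ≤ n → n ≤ U → ∀ e : ℤ, e = 1 ∨ e = -1 →
        ∃ p : ℕ, p.Prime ∧ p ≤ 4 * w ∧ (p : ℤ) ∣ a * n + e := by
  obtain ⟨C, hC, x₀, hps⟩ := presieve_excl
  obtain ⟨w₁, hw₁⟩ := Filter.eventually_atTop.1 (eventually_c C hC)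
  refine ⟨1 / (8 * (C + 1)), by positivity, max x₀ w₁, ?_⟩
  intro w hw l hl
  have hwx : x₀ ≤ w := (le_max_left _ _).trans hw
  have hww : w₁ ≤ w := (le_max_right _ _).trans hw
  obtain ⟨h1, h2, h3, h4, h5, h6, h7⟩ := hw₁ w hww
  set L := Real.log (w : ℝ) with hL
  set LL := Real.log L with hLL
  set L3 := Real.log LL with hL3
  have hw0 : (0:ℝ) < w := by
    have : (6250000 : ℝ) ≤ w := by exact_mod_cast h1
    linarith
  have hL0 : 0 < L := by linarith
  have hLL0 : 0 < LL := by linarith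
  have hL30 : 0 < L3 := by linarith
  have hL3LL : L3 ≤ LL := by
    have := Real.log_le_sub_one_of_pos hLL0
    linarith
  set V := w * L * L3 / LL ^ 2 with hV
  have hV0 : 0 < V := by positivity
  set U := ⌊1 / (4 * (C + 1)) * V⌋₊ with hU
  have hUle : (U : ℝ) ≤ 1 / (4 * (C + 1)) * V := Nat.floor_le (by positivity)
  have hUgt : 1 / (4 * (C + 1)) * V < U + 1 := Nat.lt_floor_add_one _
  have hU1 : (w : ℝ) ^ (1 - 1 / 32 : ℝ) < U := by linarith
  have hpow0 : (1:ℝ) ≤ (w : ℝ) ^ (1 - 1 / 32 : ℝ) := by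
    apply Real.one_le_rpow _ (by norm_num)
    have : (6250000 : ℝ) ≤ w := by exact_mod_cast h1
    linarith
  have hVw : V ≤ w * L := by
    rw [hV, div_le_iff₀ (by positivity)]
    have : L3 ≤ LL ^ 2 := by nlinarith
    exact mul_le_mul_of_nonneg_left this (by positivity)
  have hC4 : 1 / (4 * (C + 1)) ≤ 1 / 4 := by
    apply one_div_le_one_div_of_le (by norm_num)
    linarith
  have hUV : (U : ℝ) ≤ w * L / 4 := by
    calc (U : ℝ) ≤ 1 / (4 * (C + 1)) * V := hUle
      _ ≤ 1 / 4 * (w * L) := by gcongr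
      _ = w * L / 4 := by ring
  have hU2 : (U : ℝ) ≤ w * L ^ 2 / 2 := by
    refine hUV.trans ?_
    have : L ≤ L ^ 2 := by nlinarith
    nlinarith
  obtain ⟨ρ, hρ1, hρ2⟩ := hps w hwx U l hl hU1 hU2
  have hUw : U < w * w := by
    have h8 : (U : ℝ) < w * w := by
      refine lt_of_le_of_lt hUV ?_
      have : L < w := by linarith
      nlinarith
    exact_mod_cast h8
  have hcard : (((Ioc 0 U) ×ˢ (BB 1)).filter fun s => ∀ p : ℕ, p.Prime → p ≤ w → p ≠ l →
        ¬ (p : ℤ) ∣ (ρ p : ℤ) * s.1 + s.2).card <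
      ((Ioc w (4 * w)).filter fun p : ℕ => p.Prime ∧ p ≠ l).card := by
    have h8 := card_primes w l h1
    have h9 : C * (U * (LL ^ 2 / (L ^ 2 * L3))) ≤ w / (4 * L) := by
      calc C * (U * (LL ^ 2 / (L ^ 2 * L3)))
          ≤ (C + 1) * ((1 / (4 * (C + 1)) * V) * (LL ^ 2 / (L ^ 2 * L3))) := by
            gcongr
            linarith
        _ = w / (4 * L) := by
            rw [hV]
            have : (C + 1) ≠ 0 := by positivity
            field_simp
    have h10 : w / (4 * L) < (w : ℝ) / Real.log (4 * w) - 1 := by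
      have h11 : Real.log (4 * w) ≤ 2 * L := by
        rw [Real.log_mul (by norm_num) hw0.ne']
        have : Real.log 4 ≤ 4 - 1 := Real.log_le_sub_one_of_pos (by norm_num)
        linarith
      have h12 : 0 < Real.log (4 * w) := by
        apply Real.log_pos
        have : (6250000 : ℝ) ≤ w := by exact_mod_cast h1
        linarith
      have h13 : w / (2 * L) ≤ (w : ℝ) / Real.log (4 * w) :=
        div_le_div_of_nonneg_left hw0.le h12 h11
      have h14 : 1 < w / (4 * L) := by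
        rw [lt_div_iff₀ (by positivity)]
        nlinarith
      have h15 : w / (2 * L) = w / (4 * L) + w / (4 * L) := by field_simp; norm_num
      linarith
    have h11 := lt_of_lt_of_le (lt_of_le_of_lt (hρ2.trans h9) h10) h8
    exact_mod_cast h11
  obtain ⟨b, hb1, hb2⟩ := exists_class w l U hUw ρ hρ1 hcard
  refine ⟨b, U, hb1, ?_, hb2⟩
  have h8 : 1 / (8 * (C + 1)) * V = (1 / (4 * (C + 1)) * V) / 2 := by field_simp; norm_num
  rw [h8]
  linarith

end RepLpf
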