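import Pool.Agent.Lib.MP_adea1b_nt.Core
import Pool.Agent.Lib.Linnik.Main

/-!
# Primes `p` such that all primes `q ≡ ± 1 mod p` are large
-/

open Finset
open scoped Classical

namespace RepLpf

lemma TS_dvd (w l : ℕ) : ∏ p ∈ TS w l, p ∣ primorial (4 * w) := by
  rw [primorial]
  apply Finset.prod_dvd_prod_of_subset
  intro p hp
  rw [TS, mem_filter, mem_Ioc] at hp
  rw [mem_filter, mem_range]
  exact ⟨by omega, hp.2.1⟩

lemma not_eight_dvd (n : ℕ) : ¬ 8 ∣ primorial n := by
  intro h
  have h1 : Squarefree (primorial n) := by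
    rw [primorial]
    apply Finset.squarefree_prod_of_pairwise_isCoprime
    · intro p hp q hq hpq
      rw [mem_coe, mem_filter] at hp hq
      show IsRelPrime p q
      rw [← Nat.coprime_iff_isRelPrime]
      exact (Nat.coprime_primes hp.2 hq.2).2 hpq
    · intro p hp
      rw [mem_filter] at hp
      exact hp.2.prime.squarefree
  have h2 : (2 * 2 : ℕ) ∣ primorial n := dvd_trans (by norm_num) h
  have h3 := h1 2 h2
  rw [Nat.isUnit_iff] at h3
  omega

lemma TS_not_dvd (w l : ℕ) (hl : l.Prime) : ¬ l ∣ ∏ p ∈ TS w l, p := by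
  rw [Prime.dvd_finsetProd_iff hl.prime]
  rintro ⟨p, hp, h⟩
  rw [TS, mem_filter] at hp
  exact hp.2.2 ((Nat.prime_dvd_prime_iff_eq hl hp.2.1).1 h).symm

lemma eventually_main (c η ε : ℝ) (hc : 0 < c) (hη : 0 < η) (hε : 0 < ε) (hε1 : ε ≤ 1 / 2)
    (w₀ : ℕ) (x₀ : ℝ) : ∀ᶠ X : ℝ in Filter.atTop,
      x₀ ≤ X ∧ 1 < X ∧ w₀ ≤ ⌊η * Real.log X⌋₊ ∧ 2 ≤ η * Real.log X ∧
      4 ≤ Real.log (Real.log (Real.log X)) ∧
      Real.sqrt (Real.log X) ≤ η / 2 * Real.log X ∧
      X ^ (1 - ε) + (4 * (η * Real.log X) + 1) ≤ c * X ^ (1 - ε / 2) / Real.log X := by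
  have hlog := Real.tendsto_log_atTop
  have h1 : ∀ᶠ X : ℝ in Filter.atTop, (w₀ : ℝ) ≤ η * Real.log X :=
    (Filter.Tendsto.const_mul_atTop hη hlog).eventually_ge_atTop _
  have h2 : ∀ᶠ X : ℝ in Filter.atTop, (2 : ℝ) ≤ η * Real.log X :=
    (Filter.Tendsto.const_mul_atTop hη hlog).eventually_ge_atTop _
  have h3 : ∀ᶠ X : ℝ in Filter.atTop, (4 : ℝ) ≤ Real.log (Real.log (Real.log X)) :=
    (hlog.comp (hlog.comp hlog)).eventually_ge_atTop _
  have h4 : ∀ᶠ X : ℝ in Filter.atTop, (2 / η) ^ 2 ≤ Real.log X := hlog.eventually_ge_atTop _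
  have h5 : (fun X : ℝ => Real.log X ^ 1) =o[Filter.atTop] (fun X : ℝ => X ^ (ε / 4)) := by
    have h := isLittleO_log_rpow_rpow_atTop (s := ε / 4) (1 : ℝ) (by positivity)
    refine h.congr_left fun x => ?_
    exact_mod_cast Real.rpow_natCast (Real.log x) 1
  have h6 := h5.bound (show (0 : ℝ) < c / (4 * (1 + 4 * η + c)) by positivity)
  filter_upwards [h1, h2, h3, h4, h6, Filter.eventually_ge_atTop x₀,
    Filter.eventually_gt_atTop 1, hlog.eventually_ge_atTop 1] with X h1 h2 h3 h4 h6 h7 h8 h9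
  have hX0 : 0 < X := by linarith
  rw [pow_one, Real.norm_of_nonneg (by linarith), Real.norm_of_nonneg (by positivity)] at h6
  refine ⟨h7, h8, Nat.le_floor h1, h2, h3, ?_, ?_⟩
  · have h10 : 2 / η ≤ Real.sqrt (Real.log X) := Real.le_sqrt_of_sq_le h4
    have h11 : Real.log X = Real.sqrt (Real.log X) * Real.sqrt (Real.log X) :=
      (Real.mul_self_sqrt (by linarith)).symm
    have h12 : 1 ≤ η / 2 * Real.sqrt (Real.log X) := by
      have := mul_le_mul_of_nonneg_left h10 (show 0 ≤ η / 2 by positivity)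
      have h13 : η / 2 * (2 / η) = 1 := by field_simp
      linarith
    calc Real.sqrt (Real.log X) = 1 * Real.sqrt (Real.log X) := (one_mul _).symm
      _ ≤ (η / 2 * Real.sqrt (Real.log X)) * Real.sqrt (Real.log X) :=
          mul_le_mul_of_nonneg_right h12 (Real.sqrt_nonneg _)
      _ = η / 2 * Real.log X := by rw [mul_assoc, ← h11]
  · set L := Real.log X with hL
    have hL0 : 0 < L := by linarith
    set Y := X ^ (ε / 4) with hY
    have hY0 : 0 < Y := by positivity
    have hX1 : 1 ≤ X ^ (1 - ε) := Real.one_le_rpow h8.le (by linarith)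
    have e1 : X ^ (1 - ε / 2) = X ^ (1 - ε) * Y * Y := by
      rw [hY, ← Real.rpow_add hX0, ← Real.rpow_add hX0]
      congr 1
      ring
    have hLY : L ≤ c / (4 * (1 + 4 * η + c)) * Y := h6
    have hLY2 : (1 + 4 * η + c) * L * 4 ≤ c * Y := by
      have h10 : (4 * (1 + 4 * η + c)) * L ≤ (4 * (1 + 4 * η + c)) *
          (c / (4 * (1 + 4 * η + c)) * Y) := mul_le_mul_of_nonneg_left hLY (by positivity)
      have h11 : (4 * (1 + 4 * η + c)) * (c / (4 * (1 + 4 * η + c)) * Y) = c * Y := by
        field_simp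
      linarith
    have hY1 : 1 ≤ Y := Real.one_le_rpow h8.le (by positivity)
    rw [le_div_iff₀ hL0, e1]
    -- each piece
    have hYL : (1 + 4 * η) * L * 4 ≤ c * Y := by
      have : 0 ≤ c * L * 4 := by positivity
      nlinarith
    have hcY : 4 * L ≤ Y := by
      have h10 : c * (4 * L) ≤ c * Y := by
        have : 0 ≤ (1 + 4 * η) * L * 4 := by positivity
        nlinarith
      exact le_of_mul_le_mul_left h10 hc
    have p1 : X ^ (1 - ε) * L ≤ X ^ (1 - ε) * (c * Y / 4) := by
      apply mul_le_mul_of_nonneg_left _ (by positivity)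
      have : 0 ≤ 4 * η * L * 4 := by positivity
      nlinarith
    have p2 : (4 * (η * L) + 1) * L ≤ X ^ (1 - ε) * (c * Y / 4 * Y) := by
      have h10 : (4 * (η * L) + 1) ≤ (1 + 4 * η) * L := by nlinarith
      calc (4 * (η * L) + 1) * L ≤ ((1 + 4 * η) * L) * L := by gcongr
        _ ≤ (c * Y / 4) * Y := by
            apply mul_le_mul _ (by linarith) hL0.le (by positivity)
            linarith
        _ = 1 * (c * Y / 4 * Y) := (one_mul _).symm
        _ ≤ X ^ (1 - ε) * (c * Y / 4 * Y) := by gcongr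
    have p3 : X ^ (1 - ε) * (c * Y / 4) ≤ X ^ (1 - ε) * (c * Y / 4 * Y) := by
      apply mul_le_mul_of_nonneg_left _ (by positivity)
      have : 0 ≤ c * Y / 4 := by positivity
      nlinarith
    have p4 : 0 ≤ X ^ (1 - ε) * (c * Y / 4 * Y) := by positivity
    calc (X ^ (1 - ε) + (4 * (η * L) + 1)) * L = X ^ (1 - ε) * L + (4 * (η * L) + 1) * L := by
          ring
      _ ≤ X ^ (1 - ε) * (c * Y / 4 * Y) + X ^ (1 - ε) * (c * Y / 4 * Y) := by linarith
      _ ≤ c * (X ^ (1 - ε) * Y * Y) := by nlinarith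

/-- MAIN THEOREM: many primes `p` such that all primes `q ≡ ± 1 mod p` are large. -/
theorem main (ε : ℝ) (hε : 0 < ε) : ∃ c : ℝ, 0 < c ∧ ∃ X₀ : ℝ, ∀ X : ℝ, X₀ ≤ X →
    X ^ (1 - ε) ≤ (((Icc 1 ⌊X⌋₊).filter fun p : ℕ => p.Prime ∧ 3 < p ∧
      ∀ q : ℕ, q.Prime → (p ∣ q - 1 ∨ p ∣ q + 1) →
        c * p * (Real.log X * Real.log (Real.log X) *
          Real.log (Real.log (Real.log (Real.log X))) /
            Real.log (Real.log (Real.log X)) ^ 2) ≤ q).card : ℝ) := by
  obtain ⟨c₀, hc₀, w₀, hcore⟩ := core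
  have hAP0 : Lnk.PrimesAP := Lnk.primesAP
  unfold Lnk.PrimesAP at hAP0
  obtain ⟨δ, c₁, x₀, hδ0, hδ1, hc₁, hx₀, hAP⟩ := hAP0
  set ε' := min ε (1 / 2) with hε'
  have hε'0 : 0 < ε' := by positivity
  have hε'1 : ε' ≤ 1 / 2 := min_le_right _ _
  have hε'ε : ε' ≤ ε := min_le_left _ _
  set η := min δ (ε' / 2) / 6 with hη
  have hη0 : 0 < η := by positivity
  have hηδ : 6 * η ≤ δ := by
    have := min_le_left δ (ε' / 2)
    rw [hη]; linarith
  have hηε : 6 * η ≤ ε' / 2 := by
    have := min_le_right δ (ε' / 2)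
    rw [hη]; linarith
  obtain ⟨X₁, hX₁⟩ := Filter.eventually_atTop.1
    (eventually_main c₁ η ε' hc₁ hη0 hε'0 hε'1 w₀ x₀)
  refine ⟨c₀ * η / 8, by positivity, X₁, fun X hX => ?_⟩
  obtain ⟨hXx₀, hX1, hw₀, hηL, hl3, hsq, hcount⟩ := hX₁ X hX
  have hX0 : 0 < X := by linarith
  set t := Real.log X with ht
  have ht0 : 0 < t := Real.log_pos hX1
  set w := ⌊η * t⌋₊ with hw
  have hwle : (w : ℝ) ≤ η * t := Nat.floor_le (by positivity)
  have hwgt : η * t < w + 1 := Nat.lt_floor_add_one _
  have hwhalf : η / 2 * t ≤ w := by linarith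
  have hw0 : (0 : ℝ) < w := lt_of_lt_of_le (by positivity) hwhalf
  -- the modulus
  have hN : ((primorial (4 * w) : ℕ) : ℝ) ≤ X ^ (6 * η) := by
    have h1 : ((primorial (4 * w) : ℕ) : ℝ) ≤ (4 : ℝ) ^ (4 * w) := by
      exact_mod_cast primorial_le_four_pow (4 * w)
    refine h1.trans ?_
    rw [Real.rpow_def_of_pos hX0, ← ht]
    have h2 : (4 : ℝ) ^ (4 * w) = Real.exp (((4 * w : ℕ) : ℝ) * Real.log 4) := by
      rw [Real.exp_nat_mul, Real.exp_log (by norm_num)]
    rw [h2]
    apply Real.exp_le_exp.2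
    have h3 : Real.log 4 ≤ 1.3863 := by
      have h4 : Real.log 4 = 2 * Real.log 2 := by
        have : (4 : ℝ) = 2 ^ 2 := by norm_num
        rw [this, Real.log_pow]; norm_num
      rw [h4]
      have := Real.log_two_lt_d9
      linarith
    push_cast
    have h4 : 0 ≤ Real.log 4 := Real.log_nonneg (by norm_num)
    calc 4 * (w : ℝ) * Real.log 4 ≤ 4 * (η * t) * 1.3863 := by gcongr
      _ ≤ t * (6 * η) := by nlinarith [mul_pos hη0 ht0]
  have hNδ : ((primorial (4 * w) : ℕ) : ℝ) ≤ X ^ δ :=
    hN.trans (Real.rpow_le_rpow_of_exponent_le hX1.le hηδ)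
  have hNε : ((primorial (4 * w) : ℕ) : ℝ) ≤ X ^ (ε' / 2) :=
    hN.trans (Real.rpow_le_rpow_of_exponent_le hX1.le hηε)
  obtain ⟨l, hl, -, hAPl⟩ := hAP X hXx₀ (primorial (4 * w)) (primorial_pos _) hNδ
    (not_eight_dvd _)
  obtain ⟨b, U, hb, hU, hkill⟩ := hcore w hw₀ l hl
  set q₀ := ∏ p ∈ TS w l, p with hq₀
  have hq₀N : q₀ ∣ primorial (4 * w) := TS_dvd w l
  have hq₀pos : 0 < q₀ := Nat.pos_of_dvd_of_pos hq₀N (primorial_pos _)
  have hunit : IsUnit ((b : ZMod q₀)) := (ZMod.isUnit_iff_coprime b q₀).2 hb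
  have hpc := hAPl q₀ hq₀N (TS_not_dvd w l hl) b hunit X le_rfl (by nlinarith)
  -- the count
  have hφ : (Nat.totient q₀ : ℝ) ≤ X ^ (ε' / 2) := by
    refine le_trans ?_ hNε
    exact_mod_cast (Nat.totient_le q₀).trans (Nat.le_of_dvd (primorial_pos _) hq₀N)
  have hφ0 : (0 : ℝ) < Nat.totient q₀ := by exact_mod_cast Nat.totient_pos.2 hq₀pos
  have hpc2 : c₁ * X ^ (1 - ε' / 2) / t ≤ (Lnk.pc q₀ (b : ZMod q₀) X : ℝ) := by
    refine le_trans ?_ hpc
    have e1 : X ^ (1 - ε' / 2) * X ^ (ε' / 2) = X := by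
      rw [← Real.rpow_add hX0]
      simp
    rw [div_le_div_iff₀ ht0 (by positivity)]
    calc c₁ * X ^ (1 - ε' / 2) * (Nat.totient q₀ * Real.log X)
        ≤ c₁ * X ^ (1 - ε' / 2) * (X ^ (ε' / 2) * t) := by gcongr
      _ = c₁ * (X ^ (1 - ε' / 2) * X ^ (ε' / 2)) * t := by ring
      _ = c₁ * X * t := by rw [e1]
  -- size of U
  have hUbig : c₀ * η / 8 * (t * Real.log t * Real.log (Real.log (Real.log t)) /
      Real.log (Real.log t) ^ 2) ≤ U := by
    refine le_trans ?_ hU
    have hl2 : Real.log 2 ≤ 1 := by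
      have := Real.log_two_lt_d9
      linarith
    -- logs of w
    have hlt : 0 < Real.log (Real.log t) := by
      by_contra h
      push Not at h
      have : Real.log (Real.log (Real.log X)) ≤ 0 := h
      linarith
    have g2 : 4 ≤ Real.log (Real.log t) := hl3
    have g1 : 4 < Real.log t := by
      have hpos : 0 < Real.log t := by
        by_contra h
        push Not at h
        have h1 : Real.log t < 0 ∨ Real.log t = 0 := lt_or_eq_of_le h
        have ht1 : t ≤ 1 := by
          by_contra h2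
          push Not at h2
          have := Real.log_pos h2
          linarith
        rcases h1 with h1 | h1
        · -- then loglog t = log |log t|; t ≤ 1, so η t ≥ 2 is impossible unless η large
          have h3 : 6 * η ≤ 1 / 4 := by linarith
          nlinarith
        · rw [h1, Real.log_zero] at g2
          linarith
      have h1 := Real.add_one_le_exp (Real.log (Real.log t))
      rw [Real.exp_log hpos] at h1
      linarith
    have ht1 : 1 ≤ t := by
      by_contra h
      push Not at h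
      have := Real.log_nonpos ht0.le h.le
      linarith
    have hwt : Real.log t / 2 ≤ Real.log w := by
      rw [← Real.log_sqrt ht0.le]
      exact Real.log_le_log (Real.sqrt_pos.2 ht0) (hsq.trans hwhalf)
    have hwt' : Real.log w ≤ Real.log t := by
      apply Real.log_le_log hw0
      have : η ≤ 1 := by linarith
      calc (w : ℝ) ≤ η * t := hwle
        _ ≤ 1 * t := by gcongr
        _ = t := one_mul t
    have hLw : 0 < Real.log w := by linarith
    have hm1 : Real.log (Real.log t) - 1 ≤ Real.log (Real.log w) := by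
      have h1 := Real.log_le_log (by linarith) hwt
      rw [Real.log_div (by linarith) (by norm_num)] at h1
      linarith
    have hm2 : Real.log (Real.log w) ≤ Real.log (Real.log t) := Real.log_le_log hLw hwt'
    have hm0 : 0 < Real.log (Real.log w) := by linarith
    have hmhalf : Real.log (Real.log t) / 2 ≤ Real.log (Real.log w) := by linarith
    have hl0 : 0 < Real.log (Real.log (Real.log t)) := Real.log_pos (by linarith)
    have hl1 : Real.log (Real.log (Real.log t)) / 2 ≤ Real.log (Real.log (Real.log w)) := by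
      have h1 := Real.log_le_log (by linarith) hmhalf
      rw [Real.log_div (by linarith) (by norm_num)] at h1
      have h2 : 2 * Real.log 2 ≤ Real.log (Real.log (Real.log t)) := by
        have h3 : Real.log 4 = 2 * Real.log 2 := by
          have : (4 : ℝ) = 2 ^ 2 := by norm_num
          rw [this, Real.log_pow]; norm_num
        rw [← h3]
        exact Real.log_le_log (by norm_num) g2
      linarith
    have hA : t * Real.log t * Real.log (Real.log (Real.log t)) * (η / 8) ≤
        w * Real.log w * Real.log (Real.log (Real.log w)) := by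
      calc t * Real.log t * Real.log (Real.log (Real.log t)) * (η / 8)
          = (η / 2 * t) * (Real.log t / 2) * (Real.log (Real.log (Real.log t)) / 2) := by ring
        _ ≤ w * Real.log w * Real.log (Real.log (Real.log w)) := by
            have : 0 ≤ Real.log t / 2 := by linarith
            gcongr
    have hB : Real.log (Real.log w) ^ 2 ≤ Real.log (Real.log t) ^ 2 :=
      pow_le_pow_left₀ hm0.le hm2 2
    calc c₀ * η / 8 * (t * Real.log t * Real.log (Real.log (Real.log t)) /
          Real.log (Real.log t) ^ 2)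
        = c₀ * ((t * Real.log t * Real.log (Real.log (Real.log t)) * (η / 8)) /
            Real.log (Real.log t) ^ 2) := by ring
      _ ≤ c₀ * ((w * Real.log w * Real.log (Real.log (Real.log w))) /
            Real.log (Real.log w) ^ 2) := by
          apply mul_le_mul_of_nonneg_left _ hc₀.le
          have hnn : 0 ≤ w * Real.log w * Real.log (Real.log (Real.log w)) := by
            have : 0 ≤ Real.log (Real.log (Real.log w)) := by linarith
            positivity
          exact div_le_div₀ hnn hA (by positivity) hB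
  -- conclusion
  set G := (Icc 1 ⌊X⌋₊).filter fun p : ℕ => p.Prime ∧ 3 < p ∧
      ∀ q : ℕ, q.Prime → (p ∣ q - 1 ∨ p ∣ q + 1) →
        c₀ * η / 8 * p * (t * Real.log t *
          Real.log (Real.log (Real.log t)) / Real.log (Real.log t) ^ 2) ≤ q with hG
  set A := (Icc 1 ⌊X⌋₊).filter fun p : ℕ => p.Prime ∧ ((p : ℕ) : ZMod q₀) = (b : ZMod q₀)
    with hA
  have hw2 : 1 ≤ w := by
    have : (0 : ℝ) < w := hw0
    exact_mod_cast this
  have hsub : A ⊆ G ∪ Icc 1 (4 * w + 1) := by
    intro p hp
    rw [hA, mem_filter] at hp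
    obtain ⟨hpI, hpp, hpb⟩ := hp
    rw [mem_union]
    by_cases hpw : p ≤ 4 * w + 1
    · right
      rw [mem_Icc]
      exact ⟨hpp.one_lt.le, hpw⟩
    left
    push Not at hpw
    rw [hG, mem_filter]
    refine ⟨hpI, hpp, by omega, ?_⟩
    intro q hq hqp
    have hmod : p ≡ b [MOD q₀] := (ZMod.natCast_eq_natCast_iff p b q₀).1 hpb
    have hp0 : (0 : ℝ) ≤ p := Nat.cast_nonneg _
    -- no prime among the small terms
    have hno : ∀ n : ℕ, 1 ≤ n → n ≤ U → ∀ e : ℤ, e = 1 ∨ e = -1 → (q : ℤ) ≠ p * n + e := by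
      intro n hn1 hnU e he heq
      obtain ⟨r, hr, hrw, hdvd⟩ := hkill p hmod n hn1 hnU e he
      rw [← heq] at hdvd
      have h1 : r ∣ q := by exact_mod_cast hdvd
      have h2 := (Nat.prime_dvd_prime_iff_eq hr hq).1 h1
      have h3 : (p : ℤ) - 1 ≤ p * n + e := by
        have h4 : (p : ℤ) * 1 ≤ p * n := by
          apply mul_le_mul_of_nonneg_left _ (by positivity)
          exact_mod_cast hn1
        rcases he with rfl | rfl <;> linarith
      rw [← heq] at h3
      omega
    have hqU : U * p ≤ q := by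
      rcases hqp with h | h
      · obtain ⟨n, hn⟩ := h
        have hq1 := hq.one_lt
        have hn0 : n ≠ 0 := by
          rintro rfl
          omega
        by_contra hcon
        push Not at hcon
        have hnU : n ≤ U := by
          by_contra h2
          push Not at h2
          have : U * p ≤ n * p := Nat.mul_le_mul_right p h2.le
          rw [mul_comm n p, ← hn] at this
          omega
        apply hno n (Nat.one_le_iff_ne_zero.2 hn0) hnU 1 (Or.inl rfl)
        have : q = p * n + 1 := by omega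
        rw [this]; push_cast; ring
      · obtain ⟨n, hn⟩ := h
        have hn0 : n ≠ 0 := by
          rintro rfl
          omega
        by_contra hcon
        push Not at hcon
        have hnU : n ≤ U := by
          by_contra h2
          push Not at h2
          have : (U + 1) * p ≤ n * p := Nat.mul_le_mul_right p h2
          rw [mul_comm n p, ← hn, add_mul, one_mul] at this
          omega
        apply hno n (Nat.one_le_iff_ne_zero.2 hn0) hnU (-1) (Or.inr rfl)
        have : q + 1 = p * n := by omega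
        have h2 : (q : ℤ) + 1 = p * n := by exact_mod_cast this
        linarith
    have hqU' : (U : ℝ) * p ≤ q := by exact_mod_cast hqU
    calc c₀ * η / 8 * p * (t * Real.log t *
          Real.log (Real.log (Real.log t)) / Real.log (Real.log t) ^ 2)
        = (c₀ * η / 8 * (t * Real.log t *
          Real.log (Real.log (Real.log t)) / Real.log (Real.log t) ^ 2)) * (p : ℝ) := by ring
      _ ≤ (U : ℝ) * (p : ℝ) := mul_le_mul_of_nonneg_right hUbig hp0
      _ ≤ q := hqU'
  have hcard : A.card ≤ G.card + (4 * w + 1) := by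
    have h1 := (card_le_card hsub).trans (card_union_le _ _)
    rw [Nat.card_Icc] at h1
    omega
  have hcard' : (A.card : ℝ) ≤ G.card + (4 * w + 1) := by exact_mod_cast hcard
  have hAcard : (A.card : ℝ) = (Lnk.pc q₀ (b : ZMod q₀) X : ℝ) := by
    rw [hA]
    unfold Lnk.pc
    congr!
  have h1 : X ^ (1 - ε) ≤ X ^ (1 - ε') :=
    Real.rpow_le_rpow_of_exponent_le hX1.le (by linarith)
  have h2 : (4 * (w : ℝ) + 1) ≤ 4 * (η * t) + 1 := by linarith
  have h3 : X ^ (1 - ε) ≤ (G.card : ℝ) := by linarith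
  refine h3.trans (le_of_eq ?_)
  rw [hG]

end RepLpf
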