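import Pool.Agent.Lib.MP_5b0a7e_nt.GridSieve

/-!
# The presieve in nonzero residue classes, avoiding one prime
-/

open Finset
open scoped Classical

namespace RepLpf

open Pool.Agent.FixedClass

lemma eventually_z : ∀ᶠ x : ℕ in Filter.atTop,
    12 * Real.log (Real.log x) ^ 2 ≤ Real.log x := by
  have h1 : Filter.Tendsto (fun x : ℕ => Real.log (x : ℝ)) Filter.atTop Filter.atTop :=
    Real.tendsto_log_atTop.comp tendsto_natCast_atTop_atTop
  have h2 : (fun x : ℝ => Real.log x ^ 2) =o[Filter.atTop] (fun x : ℝ => x) := by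
    have h := isLittleO_log_rpow_rpow_atTop (s := (1 : ℝ)) (2 : ℝ) (by norm_num)
    refine h.congr' ?_ ?_
    · filter_upwards with x
      exact_mod_cast Real.rpow_natCast (Real.log x) 2
    · filter_upwards with x
      simp
  have h3 := h2.bound (show (0:ℝ) < 1 / 12 by norm_num)
  filter_upwards [h1.eventually h3, h1.eventually (Filter.eventually_ge_atTop 1)] with x hx hx1
  rw [Real.norm_of_nonneg (sq_nonneg _), Real.norm_of_nonneg (by linarith)] at hx
  linarith

/-- Few sites are killed by a prime. -/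
lemma card_killed (U l h : ℕ) :
    ((((Ioc 0 U) ×ˢ (BB 1)).filter fun s : ℕ × ℤ => (l : ℤ) ∣ (s.1 : ℤ) - s.2 * h).card : ℝ) ≤
      2 * (U * (1 / (l : ℝ)) + 1) := by
  have hBB : BB 1 = {(-1 : ℤ), 1} := by
    unfold BB
    decide
  have h1 : ((Ioc 0 U) ×ˢ (BB 1)).filter (fun s : ℕ × ℤ => (l : ℤ) ∣ (s.1 : ℤ) - s.2 * h) ⊆
      (((Ioc 0 U).filter fun n : ℕ => (l : ℤ) ∣ ((-1 : ℤ) * -h) + 1 * (n : ℤ)).image
        fun n => (n, (-1 : ℤ))) ∪
      (((Ioc 0 U).filter fun n : ℕ => (l : ℤ) ∣ ((1 : ℤ) * -h) + 1 * (n : ℤ)).image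
        fun n => (n, (1 : ℤ))) := by
    rintro ⟨n, b⟩ hs
    rw [mem_filter, mem_product, hBB] at hs
    obtain ⟨⟨hn, hb⟩, hd⟩ := hs
    simp only [mem_insert, mem_singleton] at hb
    rw [mem_union, mem_image, mem_image]
    rcases hb with hb | hb
    · left
      subst hb
      refine ⟨n, ?_, rfl⟩
      rw [mem_filter]
      refine ⟨hn, ?_⟩
      convert hd using 1
      ring
    · right
      subst hb
      refine ⟨n, ?_, rfl⟩
      rw [mem_filter]
      refine ⟨hn, ?_⟩
      convert hd using 1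
      ring
  have h2 := (card_le_card h1).trans ((card_union_le _ _).trans
    (Nat.add_le_add card_image_le card_image_le))
  have h3 := card_shift U l ((-1 : ℤ) * -h) 1 isCoprime_one_right
  have h4 := card_shift U l ((1 : ℤ) * -h) 1 isCoprime_one_right
  have h5 : ((((Ioc 0 U) ×ˢ (BB 1)).filter
      fun s : ℕ × ℤ => (l : ℤ) ∣ (s.1 : ℤ) - s.2 * h).card : ℝ) ≤
      (((Ioc 0 U).filter fun n : ℕ => (l : ℤ) ∣ ((-1 : ℤ) * -h) + 1 * (n : ℤ)).card : ℝ) +
      (((Ioc 0 U).filter fun n : ℕ => (l : ℤ) ∣ ((1 : ℤ) * -h) + 1 * (n : ℤ)).card : ℝ) := by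
    exact_mod_cast h2
  linarith

/-- The presieve: nonzero residue classes modulo the primes up to `x` such that few
numbers `a n ± 1` with `n ≤ U` have no prime factor up to `x`, different from `l`. -/
theorem presieve_excl : ∃ C : ℝ, 0 < C ∧ ∃ x₀ : ℕ, ∀ x : ℕ, x₀ ≤ x → ∀ U l : ℕ, l.Prime →
    (x : ℝ) ^ (1 - 1 / 32 : ℝ) < U → (U : ℝ) ≤ x * Real.log x ^ 2 / 2 →
    ∃ ρ : ℕ → ℕ, (∀ p : ℕ, p.Prime → p ≤ x → ¬ p ∣ ρ p) ∧
      ((((Ioc 0 U) ×ˢ (BB 1)).filter fun s => ∀ p : ℕ, p.Prime → p ≤ x → p ≠ l →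
        ¬ (p : ℤ) ∣ (ρ p : ℤ) * s.1 + s.2).card : ℝ) ≤
        C * (U * (Real.log (Real.log x) ^ 2 /
          (Real.log x ^ 2 * Real.log (Real.log (Real.log x))))) := by
  obtain ⟨x₀, hx₀⟩ := medium_sieve
  obtain ⟨x₁, hx₁⟩ := Filter.eventually_atTop.1 (eventually_k.and eventually_z)
  set C : ℝ := 1248 * (Real.exp 1 * (Real.exp 1 + Real.exp 8)) with hC
  have hC0 : 0 < C := by positivity
  refine ⟨C + 5, by positivity, max x₀ (max x₁ 2), ?_⟩
  intro x hx U l hl hU hUx
  have hxx0 : x₀ ≤ x := (le_max_left _ _).trans hx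
  have hxx1 : x₁ ≤ x := (le_max_left _ _).trans ((le_max_right _ _).trans hx)
  have hxx2 : 2 ≤ x := (le_max_right _ _).trans ((le_max_right _ _).trans hx)
  obtain ⟨z, hz8, hzx, hlogz, hlogz1, hL100, hLL1, hLLL1, hmed⟩ := hx₀ x hxx0
  obtain ⟨h8L, h12⟩ := hx₁ x hxx1
  set L := Real.log (x : ℝ) with hL
  set LL := Real.log L with hLL
  set L3 := Real.log LL with hL3
  have hx0 : (0:ℝ) < x := by positivity
  have hL0 : 0 < L := by linarith
  have hLL0 : 0 < LL := by linarith
  have hL30 : 0 < L3 := by linarith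
  have hL3LL : L3 ≤ LL := by
    have := Real.log_le_sub_one_of_pos hLL0
    linarith
  have hU0 : (0:ℝ) < U := lt_of_le_of_lt (by positivity) hU
  -- the size of `z`
  have hz8R : (8:ℝ) ≤ z := by exact_mod_cast hz8
  have hz3 : L ^ 3 ≤ 2 * (z : ℝ) := by
    have h1 : 3 * LL ≤ Real.log ((z:ℝ) + 1) := by
      refine le_trans ?_ hlogz
      rw [le_div_iff₀ hLL0]
      have h2 : 1 / 4 * (12 * LL ^ 2) * 1 ≤ 1 / 4 * L * L3 := by gcongr
      nlinarith
    have h2 : L ^ 3 ≤ (z:ℝ) + 1 := by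
      rw [← Real.log_le_log_iff (by positivity) (by linarith), Real.log_pow]
      exact_mod_cast h1
    linarith
  -- the shift
  have hlogzpos : 0 < Real.log ((z:ℝ) + 1) := Real.log_pos (by linarith)
  set H := ⌈Real.log ((z:ℝ) + 1)⌉₊ with hH
  have hH1 : 1 ≤ H := Nat.one_le_iff_ne_zero.2 (by
    intro h0
    rw [hH, Nat.ceil_eq_zero] at h0
    linarith)
  have hHlog : Real.log ((z:ℝ) + 1) ≤ H := Nat.le_ceil _
  have hHle : (H:ℝ) ≤ 2 * L := by
    have := Nat.ceil_lt_add_one hlogzpos.le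
    linarith
  have hHz : H ≤ z := by
    apply Nat.ceil_le.2
    have := Real.log_le_sub_one_of_pos (show (0:ℝ) < (z:ℝ) + 1 by linarith)
    linarith
  obtain ⟨h, hh1, hhH, hsum⟩ := exists_shift z x U 1 H (by omega) le_rfl hH1 hHlog
  have hhz : h ≤ z := hhH.trans hHz
  -- the size of `U'`
  have hkH : (H : ℝ) ≤ U := by
    calc (H:ℝ) ≤ 2 * L := hHle
      _ ≤ 8 * L ^ 3 := by nlinarith [sq_nonneg L, pow_pos hL0 3]
      _ ≤ U := h8L.trans hU.le
  have hU' : ((U + 1 * H : ℕ) : ℝ) ≤ 2 * U := by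
    push_cast
    linarith
  have hU'1 : (x : ℝ) ^ (1 - 1 / 32 : ℝ) < ((U + 1 * H : ℕ) : ℝ) := by
    push_cast
    have : (0:ℝ) ≤ H := by positivity
    linarith
  have hU'2 : ((U + 1 * H : ℕ) : ℝ) ≤ L ^ 2 * x := by
    refine hU'.trans ?_
    linarith
  have hM := hmed (U + 1 * H) hU'1 hU'2
  have hM' : ((M0 z x (U + 1 * H)).card : ℝ) ≤ (2 * U) * (13 * LL / L) := by
    refine le_trans (le_of_eq ?_) (hM.trans (mul_le_mul_of_nonneg_right hU' (by positivity)))
    unfold M0
    congr!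
  -- the small primes
  set P := (Ioc 0 z).filter Nat.Prime with hP
  have hPp : ∀ p ∈ P, p.Prime := fun p hp => (mem_filter.1 hp).2
  have hP2 : ∀ p ∈ P, 2 ≤ p := fun p hp => (hPp p hp).two_le
  have hPe : ∀ p ∈ P.erase l, p ∈ P := fun p hp => mem_of_mem_erase hp
  have hPep : ∀ p ∈ P.erase l, p.Prime := fun p hp => hPp p (hPe p hp)
  have hPe2 : ∀ p ∈ P.erase l, 2 ≤ p := fun p hp => hP2 p (hPe p hp)
  obtain ⟨r, hr1, hr2⟩ := greedy_abs (σ := ℕ × ℤ) (P.erase l)
    (fun p s c => (p : ℤ) ∣ (c : ℤ) * s.1 + s.2)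
    (fun p s => (p : ℤ) ∣ (s.1 : ℤ) ∨ (p : ℤ) ∣ s.2) hPe2
    (by
      intro p hp s hs
      push Not at hs
      have hpp := hPep p hp
      have hn : ¬ p ∣ s.1 := fun h => hs.1 (by exact_mod_cast h)
      exact ⟨rs p s.1 s.2, rs_ne hpp hn hs.2, rs_lt hpp.pos _ _,
        rs_dvd hpp hn s.2 (Nat.ModEq.refl _)⟩) (TT z x U 1 h)
  refine ⟨fun p => if p ≤ z then (if p = l then 1 else r p) else rs p h 1, ?_, ?_⟩
  · intro p hp hpx
    simp only
    split_ifs with hpz hpl
    · exact fun h1 => hp.one_lt.ne' (Nat.dvd_one.1 h1)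
    · have hpP : p ∈ P.erase l := by
        rw [mem_erase, hP, mem_filter, mem_Ioc]; exact ⟨hpl, ⟨hp.pos, hpz⟩, hp⟩
      obtain ⟨h1, h2⟩ := hr1 p hpP
      exact Nat.not_dvd_of_pos_of_lt (by omega) h2
    · have hph : ¬ p ∣ h := Nat.not_dvd_of_pos_of_lt (by omega) (by omega)
      have h1 : ¬ (p : ℤ) ∣ 1 := fun h1 => by
        have : p ∣ 1 := by exact_mod_cast h1
        exact hp.one_lt.ne' (Nat.dvd_one.1 this)
      exact Nat.not_dvd_of_pos_of_lt (rs_ne hp hph h1) (rs_lt hp.pos _ _)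
  · set K := (((Ioc 0 U) ×ˢ (BB 1)).filter fun s : ℕ × ℤ =>
      z < l ∧ (l : ℤ) ∣ (s.1 : ℤ) - s.2 * h) with hK
    have hsub : (((Ioc 0 U) ×ˢ (BB 1)).filter fun s => ∀ p : ℕ, p.Prime → p ≤ x → p ≠ l →
        ¬ (p : ℤ) ∣ ((if p ≤ z then (if p = l then 1 else r p) else rs p h 1 : ℕ) : ℤ) *
          s.1 + s.2) ⊆
        ((TT z x U 1 h).filter fun s => ∀ p ∈ P.erase l, ¬ (p : ℤ) ∣ (r p : ℤ) * s.1 + s.2) ∪
          K := by
      intro s hs
      rw [mem_filter] at hs
      by_cases hsK : s ∈ K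
      · exact mem_union_right _ hsK
      apply mem_union_left
      rw [mem_filter]
      refine ⟨?_, ?_⟩
      · unfold TT
        rw [mem_filter]
        refine ⟨hs.1, fun p hp hzp hpx hdvd => ?_⟩
        by_cases hpl : p = l
        · apply hsK
          rw [hK, mem_filter]
          rw [hpl] at hzp hdvd
          exact ⟨hs.1, hzp, hdvd⟩
        have h1 := hs.2 p hp hpx hpl
        rw [if_neg (by omega)] at h1
        apply h1
        have hph : ¬ p ∣ h := Nat.not_dvd_of_pos_of_lt (by omega) (by omega)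
        have h2 := rs_dvd hp hph 1 (Nat.ModEq.refl (rs p h 1))
        have h3 : (p : ℤ) ∣ ((rs p h 1 : ℤ) * s.1 + s.2) * h := by
          have h4 : ((rs p h 1 : ℤ) * s.1 + s.2) * h =
              ((rs p h 1 : ℤ) * h + 1) * s.1 - ((s.1 : ℤ) - s.2 * h) := by ring
          rw [h4]
          exact dvd_sub (h2.mul_right _) hdvd
        have hp' := Nat.prime_iff_prime_int.1 hp
        rcases hp'.dvd_or_dvd h3 with h4 | h4
        · exact h4
        · exact absurd (by exact_mod_cast h4) hph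
      · intro p hp
        rw [mem_erase, hP, mem_filter, mem_Ioc] at hp
        have h1 := hs.2 p hp.2.2 (hp.2.1.2.trans hzx.le) hp.1
        rwa [if_pos hp.2.1.2, if_neg hp.1] at h1
    have h1 : ((((Ioc 0 U) ×ˢ (BB 1)).filter fun s => ∀ p : ℕ, p.Prime → p ≤ x → p ≠ l →
        ¬ (p : ℤ) ∣ ((if p ≤ z then (if p = l then 1 else r p) else rs p h 1 : ℕ) : ℤ) *
          s.1 + s.2).card : ℝ) ≤
        (((TT z x U 1 h).filter fun s => ∀ p ∈ P.erase l,
          ¬ (p : ℤ) ∣ (r p : ℤ) * s.1 + s.2).card : ℝ) + (K.card : ℝ) := by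
      exact_mod_cast (card_le_card hsub).trans (card_union_le _ _)
    have hK2 : (K.card : ℝ) ≤ 5 * (U * (LL ^ 2 / (L ^ 2 * L3))) := by
      by_cases hzl : z < l
      · have h2 : (K.card : ℝ) ≤ 2 * (U * (1 / (l : ℝ)) + 1) := by
          refine le_trans ?_ (card_killed U l h)
          exact_mod_cast card_le_card (by
            intro s hs
            rw [hK, mem_filter] at hs
            rw [mem_filter]
            exact ⟨hs.1, hs.2.2⟩)
        have hzlR : (z : ℝ) ≤ l := by exact_mod_cast hzl.le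
        have h3 : 1 / (l : ℝ) ≤ 2 / L ^ 3 := by
          rw [div_le_div_iff₀ (by linarith) (by positivity)]
          linarith
        have h4 : (1 : ℝ) ≤ U / (8 * L ^ 3) := by
          rw [le_div_iff₀ (by positivity)]
          linarith
        have h5 : 1 / L ^ 3 ≤ LL ^ 2 / (L ^ 2 * L3) := by
          rw [div_le_div_iff₀ (by positivity) (by positivity)]
          have h6 : L3 ≤ LL ^ 2 * L := by
            calc L3 ≤ LL := hL3LL
              _ = LL * 1 * 1 := by ring
              _ ≤ LL * LL * L := by gcongr; linarith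
              _ = LL ^ 2 * L := by ring
          calc 1 * (L ^ 2 * L3) ≤ 1 * (L ^ 2 * (LL ^ 2 * L)) := by gcongr
            _ = LL ^ 2 * L ^ 3 := by ring
        calc (K.card : ℝ) ≤ 2 * (U * (1 / (l : ℝ)) + 1) := h2
          _ ≤ 2 * (U * (2 / L ^ 3) + U / (8 * L ^ 3)) := by gcongr
          _ = (17 / 4) * (U * (1 / L ^ 3)) := by field_simp; norm_num
          _ ≤ 5 * (U * (1 / L ^ 3)) := by
              have : 0 ≤ U * (1 / L ^ 3) := by positivity
              linarith
          _ ≤ 5 * (U * (LL ^ 2 / (L ^ 2 * L3))) := by gcongr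
      · have h2 : K = ∅ := by
          rw [hK, filter_eq_empty_iff]
          rintro s _ ⟨h3, _⟩
          exact hzl h3
        rw [h2, card_empty]
        push_cast
        positivity
    have h2 : ∑ s ∈ TT z x U 1 h, ∏ p ∈ P.erase l,
        (if (p : ℤ) ∣ (s.1 : ℤ) ∨ (p : ℤ) ∣ s.2 then (1 : ℝ) else (1 - 1 / ((p : ℝ) - 1))) ≤
        (∏ p ∈ P.erase l, (1 - 1 / (p : ℝ))) * ∑ s ∈ TT z x U 1 h, GG z s := by
      rw [mul_sum]
      refine sum_le_sum fun s _ => ?_
      have h3 := weight_le (P.erase l) hPe2 (fun p => (p : ℤ) ∣ (s.1 : ℤ) ∨ (p : ℤ) ∣ s.2)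
      have h4 : ∏ p ∈ P.erase l,
          (1 + if (p : ℤ) ∣ (s.1 : ℤ) ∨ (p : ℤ) ∣ s.2 then 1 / ((p : ℝ) - 1) else 0) ≤
          GG z s := by
        unfold GG
        rw [← hP]
        refine prod_le_prod_of_subset_of_one_le (erase_subset _ _) ?_ ?_
        · intro p hp
          exact factor_nonneg (hPep p hp) _
        · intro p hp _
          have h2 : (2:ℝ) ≤ p := by exact_mod_cast hP2 p hp
          have h1 : (0:ℝ) ≤ (p:ℝ) - 1 := by linarith
          split_ifs
          · have : 0 ≤ 1 / ((p:ℝ) - 1) := by positivity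
            linarith
          · linarith
      have h5 : 0 ≤ ∏ p ∈ P.erase l, (1 - 1 / (p : ℝ)) := by
        refine prod_nonneg fun p hp => ?_
        have h2 : (2:ℝ) ≤ p := by exact_mod_cast hPe2 p hp
        rw [sub_nonneg, div_le_one (by linarith)]
        linarith
      refine le_trans (le_of_eq ?_) (h3.trans (mul_le_mul_of_nonneg_left
        (le_trans (le_of_eq ?_) h4) h5))
      · congr!
      · congr!
    have h3 : ∏ p ∈ P.erase l, (1 - 1 / (p : ℝ)) ≤ 2 * (4 * LL / (L * L3)) := by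
      have h4 : ∏ p ∈ P.erase l, (1 - 1 / (p : ℝ)) ≤ 2 * ∏ p ∈ P, (1 - 1 / (p : ℝ)) := by
        have h5 : 0 ≤ ∏ p ∈ P.erase l, (1 - 1 / (p : ℝ)) := by
          refine prod_nonneg fun p hp => ?_
          have h2 : (2:ℝ) ≤ p := by exact_mod_cast hPe2 p hp
          rw [sub_nonneg, div_le_one (by linarith)]
          linarith
        by_cases hlP : l ∈ P
        · rw [← mul_prod_erase P _ hlP]
          have h6 : (1 / 2 : ℝ) ≤ 1 - 1 / (l : ℝ) := by
            have h2 : (2:ℝ) ≤ l := by exact_mod_cast hl.two_le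
            have h7 : 1 / (l : ℝ) ≤ 1 / 2 := one_div_le_one_div_of_le (by norm_num) h2
            linarith
          have h7 := mul_le_mul_of_nonneg_right h6 h5
          linarith
        · rw [erase_eq_of_notMem hlP]
          rw [erase_eq_of_notMem hlP] at h5
          linarith
      refine h4.trans (mul_le_mul_of_nonneg_left ?_ (by norm_num))
      refine (Pool.Agent.Presieve.prod_le z (by omega)).trans ?_
      refine (one_div_le_one_div_of_le (by positivity) hlogz).trans (le_of_eq ?_)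
      field_simp
    have h4 : 0 ≤ ∑ s ∈ TT z x U 1 h, GG z s := by
      refine sum_nonneg fun s _ => ?_
      unfold GG
      exact prod_nonneg fun p hp => factor_nonneg (mem_filter.1 hp).2 _
    have h5 : ∑ s ∈ TT z x U 1 h, GG z s ≤
        6 * (((1 : ℕ) : ℝ) * Real.exp 1) * (Real.exp 1 + Real.exp 8) * ((2 * U) * (13 * LL / L)) :=
      hsum.trans (mul_le_mul_of_nonneg_left hM' (by positivity))
    have h6 : (((TT z x U 1 h).filter fun s => ∀ p ∈ P.erase l,
          ¬ (p : ℤ) ∣ (r p : ℤ) * s.1 + s.2).card : ℝ) ≤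
        C * (U * (LL ^ 2 / (L ^ 2 * L3))) := by
      refine le_trans ?_ (le_trans h2 ?_)
      · refine le_trans (le_of_eq ?_) (hr2.trans (le_of_eq ?_))
        · congr!
        · congr!
      · calc (∏ p ∈ P.erase l, (1 - 1 / (p : ℝ))) * ∑ s ∈ TT z x U 1 h, GG z s
            ≤ (2 * (4 * LL / (L * L3))) *
              (6 * (((1 : ℕ) : ℝ) * Real.exp 1) * (Real.exp 1 + Real.exp 8) *
                ((2 * U) * (13 * LL / L))) :=
              mul_le_mul h3 h5 h4 (by positivity)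
          _ = C * (U * (LL ^ 2 / (L ^ 2 * L3))) := by
              rw [hC]
              push_cast
              field_simp
              ring
    refine h1.trans ?_
    rw [add_mul]
    exact add_le_add h6 hK2

end RepLpf
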